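import Pool.Agent.V119.PF.Pow

set_option autoImplicit false

/-! # The local motivic monodromy conjecture for the powers of `∑ y_j f_j(x₁, x₂)`

Here the `f_j` are ARBITRARY polynomials in the two variables `x₁, x₂` (not necessarily forms), the
`y_j` are further variables, `F = univ f = ∑ y_j f_j(x₁, x₂)` and `G = F ^ k`, `k ≥ 1`. The local
motivic zeta function of `F` at the origin (jets `φ` with `φ(0) = 0` and `ord F(φ) = l`) is computed
by blowing up points of the plane; see `LocalFormMot` (in `Pool.Agent.W574.MO.FormDefs`) and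
`MotLocal` (in `Pool.Agent.W574.MO.Defs`). The one of `G` is obtained from it by `T ↦ T ^ k`.

The proof:

* `pow_local`: if `b(s)` satisfies a functional equation for `F ^ k`, with formal power series
  coefficients, then `b(s / k)` satisfies one for `F`. (The equation of `F ^ k` concerns only the
  exponents which are multiples of `k`; the others follow, because after the multiplication by a
  power of `F` both sides are polynomials in `s` times `F ^ s`.)
* `algebraic_of_local`: a functional equation of `F` with formal power series coefficients gives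
  one for `H F ^ s` with polynomial coefficients, with the same `b`, where `H` is a polynomial
  which does not vanish at the origin;
* `locEq_of_univ`: this gives a functional equation of the ideal `(f_j)` near the origin;
* `point_mot`: if `b(s₀) ≠ 0`, then the contribution of the origin of the plane lies in the ring of
  the series whose denominators do not vanish at `s₀`, and all denominators which do not
  belong to roots of `b` can be removed at the same time over `ℤ[L, L⁻¹]`;
* `minus_one`: `b(-1) = 0`;
* `expand_mem`, `fin_pairs`: the substitution `T ↦ T ^ k` and the finite set of Q1. -/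

namespace Pool.Agent.Results.MP_9321be_ag.PlaneFormsLocal

open MvPolynomial Pool.Agent.W574.MO Pool.Agent.W574.HS Pool.Agent.H628R4.TP

/-- `Z` is the local motivic zeta function `∫_{φ(0) = 0} T^(ord G) dμ` at the origin of the power
`G = F ^ k` of the polynomial `F = ∑ y_j f_j(x₁, x₂)`. As `ord G(φ) = k ord F(φ)`, it is
`Z_F(T ^ k)`, where `Z_F` is the one of `F`, see `LocalFormMot`. -/
def LocalPowMot {M : Type} [CommRing M] {ι : Type} [Fintype ι] (L : Mˣ)
    (f : ι → MvPolynomial (Fin 2) ℂ) (k : ℕ) (hk : k ≠ 0) (Z : PowerSeries M) : Prop :=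
  ∃ ZF : PowerSeries M, LocalFormMot L f ZF ∧ Z = PowerSeries.expand k hk ZF

/-- Let `f_j` be polynomials in two variables, not all zero, `k ≥ 1`, `G = F ^ k` with
`F = ∑ y_j f_j(x₁, x₂)`. Let `b` be a polynomial which satisfies a functional equation
`b(s) G ^ s = P(s) G ^ (s + 1)` with a differential operator `P(s)` with formal power series
coefficients (in particular the LOCAL Bernstein-Sato polynomial of `G` at the origin), and let
`Z ∈ M⟦T⟧` be the local motivic zeta function of `G` at the origin. Then there is a finite set `S`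
of pairs `(m, n)`, `m, n ≥ 1`, such that `Z` lies in `M[T][(1 - L⁻ⁿ Tᵐ)⁻¹ : (m, n) ∈ S]`, and
`-n/m` is a root of `b` for each `(m, n) ∈ S`. -/
theorem result {M : Type} [CommRing M] (L : Mˣ) {ι : Type} [Fintype ι]
    (f : ι → MvPolynomial (Fin 2) ℂ) (hf : ∃ j, f j ≠ 0) (k : ℕ) (hk : k ≠ 0) (b : Polynomial ℂ)
    (hb : IsLocalBFunction (univ f ^ k) b) (Z : PowerSeries M) (hZ : LocalPowMot L f k hk Z) :
    ∃ S : Finset (ℕ × ℕ), (∀ p ∈ S, 1 ≤ p.1 ∧ 1 ≤ p.2 ∧ b.eval (-(p.2 : ℂ) / (p.1 : ℂ)) = 0) ∧
      Z ∈ DenRing L fun m n => (m, n) ∈ S := by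
  classical
  obtain ⟨_, ⟨Z', hZ', rfl⟩, rfl⟩ := hZ
  have h1 := Pool.Agent.V119.PF.pow_local (univ f) (univ_ne_zero f hf) k hk b hb
  have h2 := local_form_mot L f hf _ h1 Z' hZ'
    (((L⁻¹ ^ (2 + Fintype.card ι) : Mˣ) : M) * (1 - ((L⁻¹ : Mˣ) : M)))
  have h3 := Pool.Agent.V119.PF.expand_mem L _ (RootPair b) k hk (fun a n ha h => by
    change Polynomial.eval (-(n : ℂ) / a) _ = 0 at h
    rw [Polynomial.eval_comp, Polynomial.eval_mul, Polynomial.eval_C, Polynomial.eval_X] at h
    change Polynomial.eval (-(n : ℂ) / ((k * a : ℕ) : ℂ)) b = 0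
    have hk' : (k : ℂ) ≠ 0 := by exact_mod_cast hk
    have ha' : (a : ℂ) ≠ 0 := by
      have : a ≠ 0 := by omega
      exact_mod_cast this
    have h4 : -(n : ℂ) / ((k * a : ℕ) : ℂ) = (k : ℂ)⁻¹ * (-(n : ℂ) / a) := by
      push_cast
      field_simp
    rw [h4]
    exact h) _ h2
  exact Pool.Agent.V119.PF.fin_pairs L (RootPair b) _ h3

end Pool.Agent.Results.MP_9321be_ag.PlaneFormsLocal
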